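import Pool.Agent.H47.ST.Targets

/-!
# Lower bound for the number of sorted permutations by lattice words
-/

namespace Pool.Agent.H80.STK

open Finset Pool.Agent.H47.ST

theorem prod_max (r : ℕ) : ∏ c ∈ range (r + 1), max c 1 = r.factorial := by
  rw [Finset.prod_range_succ']
  have h : ∀ c ∈ range r, max (c + 1) 1 = c + 1 := by
    intro c _
    omega
  rw [Finset.prod_congr rfl h, Finset.prod_range_add_one_eq_factorial]
  simp

theorem prod_word {R k : ℕ} {l : List ℕ} (hR : 1 ≤ R) (h1 : ∀ c ∈ l, c < R)
    (h2 : ∀ c < R, l.count c = k) : (l.map fun c => max c 1).prod = (R - 1).factorial ^ k := by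
  obtain ⟨r, rfl⟩ : ∃ r, R = r + 1 := ⟨R - 1, by omega⟩
  rw [Finset.prod_list_map_count]
  rw [Finset.prod_subset (s₂ := range (r + 1))]
  · have h : ∀ c ∈ range (r + 1), max c 1 ^ l.count c = max c 1 ^ k := by
      intro c hc
      rw [h2 c (Finset.mem_range.1 hc)]
    rw [Finset.prod_congr rfl h, Finset.prod_pow, prod_max]
    simp
  · intro c hc
    exact Finset.mem_range.2 (h1 c (List.mem_toFinset.1 hc))
  · intro c _ hc
    rw [List.count_eq_zero_of_not_mem (fun h => hc (List.mem_toFinset.2 h)), pow_zero]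

theorem length_word {R k : ℕ} {l : List ℕ} (h1 : ∀ c ∈ l, c < R)
    (h2 : ∀ c < R, l.count c = k) : l.length = R * k := by
  rw [← List.sum_toFinset_count_eq_length]
  rw [Finset.sum_subset (s₂ := range R)]
  · have h : ∀ c ∈ range R, l.count c = k := fun c hc => h2 c (Finset.mem_range.1 hc)
    rw [Finset.sum_congr rfl h]
    simp
  · intro c hc
    exact Finset.mem_range.2 (h1 c (List.mem_toFinset.1 hc))
  · intro c _ hc
    exact List.count_eq_zero_of_not_mem (fun h => hc (List.mem_toFinset.2 h))

theorem iter_perm (h : T_PERM) (w : List ℕ) (t : ℕ) : (S^[t] w).Perm w := by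
  induction t generalizing w with
  | zero => exact List.Perm.refl _
  | succ t ih =>
    rw [Function.iterate_succ_apply]
    exact (ih (S w)).trans (h w)

theorem rows_eq {R k : ℕ} {V V' : List (List ℕ)} (h : ∀ B ∈ V, B.length = R)
    (h' : ∀ B ∈ V', B.length = R) (hk : V.length = k) (hk' : V'.length = k)
    (hf : V.flatten = V'.flatten) : V = V' := by
  rw [List.eq_iff_flatten_eq]
  refine ⟨hf, ?_⟩
  have e1 : V.map List.length = List.replicate k R := by
    rw [List.eq_replicate_iff]
    refine ⟨by rw [List.length_map, hk], fun b hb => ?_⟩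
    obtain ⟨B, hB, rfl⟩ := List.mem_map.1 hb
    exact h B hB
  have e2 : V'.map List.length = List.replicate k R := by
    rw [List.eq_replicate_iff]
    refine ⟨by rw [List.length_map, hk'], fun b hb => ?_⟩
    obtain ⟨B, hB, rfl⟩ := List.mem_map.1 hb
    exact h' B hB
  rw [e1, e2]

theorem pf_BLD (h1 : T_WRD) (h2 : T_SRT) (h3 : T_RI) (h4 : T_RC) (h5 : T_RD) (h6 : T_PERM) :
    T_BLD := by
  intro R k F hR hF
  classical
  have hlat : ∀ l ∈ F, lat l.reverse.reverse := fun l hl => by
    rw [List.reverse_reverse]; exact (hF l hl).1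
  have hcnt : ∀ l ∈ F, ∀ c < R, l.reverse.count c = k := fun l hl c hc => by
    rw [List.count_reverse]; exact (hF l hl).2.2 c hc
  have hc0 : ∀ l ∈ F, l.reverse.count 0 ≤ k := fun l hl => (hcnt l hl 0 (by omega)).le
  have hmem : ∀ l ∈ F, ∀ c ∈ l.reverse, c < R := fun l hl c hc =>
    (hF l hl).2.1 c (List.mem_reverse.1 hc)
  have hlen : ∀ l ∈ F, l.reverse.length = R * k := fun l hl =>
    length_word (hmem l hl) (hcnt l hl)
  -- the union
  set U : Finset (List (List ℕ)) := F.biUnion fun l => Rch k l.reverse with hU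
  have hcard : U.card = F.card * (R - 1).factorial ^ k := by
    rw [hU, Finset.card_biUnion]
    · have h : ∀ l ∈ F, (Rch k l.reverse).card = (R - 1).factorial ^ k := by
        intro l hl
        rw [h4 k l.reverse (hlat l hl) (hc0 l hl)]
        exact prod_word hR (hmem l hl) (hcnt l hl)
      rw [Finset.sum_congr rfl h, Finset.sum_const, smul_eq_mul]
    · intro l hl l' hl' hne
      refine h5 k l.reverse l'.reverse (hlat l hl) (hc0 l hl) (hlat l' hl') (hc0 l' hl')
        (by rw [hlen l hl, hlen l' hl']) ?_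
      intro h
      exact hne (List.reverse_injective h)
  -- the elements
  have hinv : ∀ V ∈ U, V.length = k ∧ (∀ B ∈ V, B.length = R) ∧
      V.flatten.Perm (List.range (R * k)) ∧ S^[R] V.flatten = List.range (R * k) := by
    intro V hV
    obtain ⟨l, hl, hVl⟩ := Finset.mem_biUnion.1 hV
    obtain ⟨g1, g2, g3, g4, g5, g6⟩ := h3 k l.reverse (hlat l hl) (hc0 l hl) V hVl
    rw [hlen l hl] at g2
    have hrow : ∀ B ∈ V, B.length = R := by
      intro B hB
      have hle : B.length ≤ R := by
        by_contra hlt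
        push Not at hlt
        have e1 := g3 R
        have e2 : l.reverse.count R = 0 :=
          List.count_eq_zero_of_not_mem (fun h => absurd (hmem l hl R h) (lt_irrefl _))
        rw [e2, List.length_eq_zero_iff, List.filter_eq_nil_iff] at e1
        exact e1 B hB (by simpa using hlt)
      have hge : R - 1 < B.length := by
        have e1 := g3 (R - 1)
        rw [hcnt l hl (R - 1) (by omega), ← g1, List.length_filter_eq_length_iff] at e1
        simpa using e1 B hB
      omega
    refine ⟨g1, hrow, g2, ?_⟩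
    have hs := h2 R V (g2.nodup_iff.2 List.nodup_range) hrow g5 g6
    refine List.Perm.eq_of_pairwise' (r := (· < ·)) hs List.pairwise_lt_range ?_
    exact (iter_perm h6 _ R).trans g2
  have hinj : Set.InjOn List.flatten (U : Set (List (List ℕ))) := by
    intro V hV V' hV' h
    obtain ⟨a1, a2, -, -⟩ := hinv V hV
    obtain ⟨b1, b2, -, -⟩ := hinv V' hV'
    exact rows_eq a2 b2 a1 b1 h
  rw [(h1 (R * k) R).1, ← hcard, ← Finset.card_image_of_injOn hinj, ← Set.ncard_coe_finset]
  apply Set.ncard_le_ncard
  · intro w hw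
    obtain ⟨V, hV, rfl⟩ := Finset.mem_image.1 (Finset.mem_coe.1 hw)
    obtain ⟨-, -, c1, c2⟩ := hinv V hV
    exact ⟨c1, c2⟩
  · refine Set.Finite.subset (List.finite_toSet (List.range (R * k)).permutations) ?_
    rintro w ⟨hw, -⟩
    exact List.mem_permutations.2 hw

end Pool.Agent.H80.STK
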